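import Pool.Agent.Y65.SQ2.LawJ
import Pool.Agent.Y862.SQ.Stm3
import Pool.Agent.H373R2.T7.FundC
import Pool.Agent.Y810.SQ.Law2

set_option autoImplicit false

/-!
# Project SQ, third part: joint moments with the weight of von Mangoldt
-/

namespace Pool.Agent.Y349.SQ3

open Finset Pool.Agent.Y862.SQ Pool.Agent.H373R2.T7 Pool.Agent.Y65.SQ2

open Classical in
lemma momw {k : ℕ} (y : ℕ) (Om : Finset ℕ) (wt : ℕ → ℝ) (a : Fin k → ℕ) (c : Fin k → ℤ)
    (L r : Fin k → ℕ) :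
    ∑ n ∈ Om, wt n * ∏ j, ((Nj y (a j) (c j) (L j) n).choose (r j) : ℝ) =
      ∑ H ∈ fam a c L r, ∑ n ∈ Om.filter (fun n => ∀ g ∈ un H, Gd y n g), wt n := by
  have h1 : ∀ n, ∏ j, ((Nj y (a j) (c j) (L j) n).choose (r j) : ℝ) =
      ∑ H ∈ fam a c L r, if (∀ g ∈ un H, Gd y n g) then (1 : ℝ) else 0 := by
    intro n
    have h := mom y {n} a c L r
    rw [Finset.sum_singleton] at h
    rw [h]
    apply Finset.sum_congr rfl
    intro H _
    rw [Finset.filter_singleton]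
    split_ifs <;> simp
  calc ∑ n ∈ Om, wt n * ∏ j, ((Nj y (a j) (c j) (L j) n).choose (r j) : ℝ) =
        ∑ n ∈ Om, ∑ H ∈ fam a c L r, if (∀ g ∈ un H, Gd y n g) then wt n else 0 := by
        apply Finset.sum_congr rfl
        intro n _
        rw [h1 n, Finset.mul_sum]
        apply Finset.sum_congr rfl
        intro H _
        split_ifs <;> simp
    _ = ∑ H ∈ fam a c L r, ∑ n ∈ Om, if (∀ g ∈ un H, Gd y n g) then wt n else 0 :=
        Finset.sum_comm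
    _ = _ := by
        apply Finset.sum_congr rfl
        intro H _
        rw [Finset.sum_filter]

open Classical in
lemma good_iff (y n : ℕ) (H : Finset (ℕ × ℤ)) :
    (∀ g ∈ H, Gd y n g) ↔ ∀ p ∈ pz y, ¬ QZ 0 H p n := by
  constructor
  · rintro h p hp ⟨g, hg, hd⟩
    exact h g hg p hp hd
  · intro h g hg p hp hd
    exact h p hp ⟨g, hg, hd⟩

open Classical in
lemma sum_window (y Z Y : ℕ) (wt : ℕ → ℝ) (H : Finset (ℕ × ℤ)) :
    ∑ n ∈ (Ioc Z (Z + Y)).filter (fun n => ∀ g ∈ H, Gd y n g), wt n =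
      ∑ n ∈ (Icc 1 (Z + Y)).filter (fun n : ℕ => ∀ p ∈ pz y, ¬ QZ 0 H p n), wt n -
      ∑ n ∈ (Icc 1 Z).filter (fun n : ℕ => ∀ p ∈ pz y, ¬ QZ 0 H p n), wt n := by
  have e : ∀ m : ℕ, Icc 1 m = Ioc 0 m := by
    intro m; ext x; simp only [mem_Icc, mem_Ioc]; omega
  rw [e, e, Finset.sum_filter, Finset.sum_filter, Finset.sum_filter, eq_sub_iff_add_eq, add_comm]
  have h := Finset.sum_Ioc_consecutive
    (fun n => if (∀ p ∈ pz y, ¬ QZ 0 H p n) then wt n else 0) (Nat.zero_le Z)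
    (Nat.le_add_right Z Y)
  rw [← h]
  congr 1
  apply Finset.sum_congr rfl
  intro n _
  simp only [good_iff]

open Classical in
lemma rhoA_le_nuB (Q : ℕ → ℕ → Prop) (p : ℕ) : rhoA Q p ≤ nuB Q p := by
  unfold rhoA nuB
  apply card_le_card
  intro r hr
  rw [mem_filter] at hr ⊢
  exact ⟨hr.1, hr.2.2⟩

lemma perA_QZ (H : Finset (ℕ × ℤ)) (C : ℕ) (hC : 2 * H.card ≤ C) : PerA (QZ 0 H) C :=
  ⟨fun p n => QZ_per 0 H p n, fun p hp =>
    (rhoA_le_nuB _ _).trans ((nuB_QZ_le p hp 0 H).trans hC)⟩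

open Classical in
lemma rP_insert (H : Finset (ℕ × ℤ)) (p : ℕ) (hp : p.Prime) :
    rP (insert (0, 0) H) p = rhoA (QZ 0 H) p + 1 := by
  have e : (range p).filter (fun r : ℕ => ∃ g ∈ insert ((0 : ℕ), (0 : ℤ)) H,
      (p : ℤ) ∣ ((r : ℤ) + g.1) ^ 2 + g.2) =
      insert 0 ((range p).filter (fun r => ¬ p ∣ r ∧ QZ 0 H p r)) := by
    ext r
    simp only [mem_filter, mem_range, mem_insert]
    have hpI : Prime (p : ℤ) := Nat.prime_iff_prime_int.1 hp
    constructor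
    · rintro ⟨hr, g, hg, hd⟩
      by_cases h0 : r = 0
      · exact Or.inl h0
      · refine Or.inr ⟨hr, fun hd' => ?_, ?_⟩
        · exact absurd (Nat.le_of_dvd (Nat.pos_of_ne_zero h0) hd') (by omega)
        · rcases hg with hg | hg
          · exfalso
            rw [hg] at hd
            simp only [Nat.cast_zero, add_zero] at hd
            have h1 : (p : ℤ) ∣ (r : ℤ) := hpI.dvd_of_dvd_pow hd
            have h2 : p ∣ r := by exact_mod_cast h1
            exact absurd (Nat.le_of_dvd (Nat.pos_of_ne_zero h0) h2) (by omega)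
          · exact ⟨g, hg, hd⟩
    · rintro (h0 | ⟨hr, hn, hQ⟩)
      · subst h0
        refine ⟨hp.pos, (0, 0), Or.inl rfl, ?_⟩
        simp
      · obtain ⟨g, hg, hd⟩ := hQ
        exact ⟨hr, g, Or.inr hg, hd⟩
  have h1 : rP (insert (0, 0) H) p = ((range p).filter (fun r : ℕ =>
      ∃ g ∈ insert ((0 : ℕ), (0 : ℤ)) H, (p : ℤ) ∣ ((r : ℤ) + g.1) ^ 2 + g.2)).card := by
    unfold rP
    congr
  rw [h1, e, card_insert_of_notMem]
  · rfl
  · intro h
    rw [mem_filter] at h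
    exact h.2.1 (dvd_zero _)

lemma VP_insert (H : Finset (ℕ × ℤ)) (y : ℕ) : VP (insert (0, 0) H) y =
    V1 y * ∏ p ∈ pz y, (1 - (rhoA (QZ 0 H) p : ℝ) / (p - 1 : ℝ)) := by
  have e : pz y = pr y := rfl
  rw [e]
  unfold VP V1
  rw [← Finset.prod_mul_distrib]
  apply Finset.prod_congr rfl
  intro p hp
  have hp1 : p.Prime := (mem_filter.1 hp).2
  have hp2 : (2 : ℝ) ≤ p := by exact_mod_cast hp1.two_le
  have hp0 : (p : ℝ) ≠ 0 := by linarith
  have hpm : (p : ℝ) - 1 ≠ 0 := by linarith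
  rw [rP_insert H p hp1]
  push_cast
  field_simp
  ring

lemma G_nonneg (H : Finset (ℕ × ℤ)) (y : ℕ) :
    0 ≤ ∏ p ∈ pz y, (1 - (rhoA (QZ 0 H) p : ℝ) / (p - 1 : ℝ)) := by
  classical
  apply Finset.prod_nonneg
  intro p hp
  have hp1 : p.Prime := (mem_filter.1 hp).2
  have hp2 : (2 : ℝ) ≤ p := by exact_mod_cast hp1.two_le
  have h1 : rP (insert (0, 0) H) p ≤ p := by
    unfold rP
    exact (card_filter_le _ _).trans (by simp)
  rw [rP_insert H p hp1] at h1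
  have h2 : (rhoA (QZ 0 H) p : ℝ) + 1 ≤ p := by exact_mod_cast h1
  have h3 : (rhoA (QZ 0 H) p : ℝ) / (p - 1 : ℝ) ≤ 1 := by
    rw [div_le_one (by linarith)]
    linarith
  linarith

/-- the level `y` -/
lemma level {r : ℕ} (hr : 1 ≤ r) {K N X : ℕ} (hK : K ≤ r) (hN : N ^ r ≤ X) (hX : 1 ≤ X) :
    N ≤ ⌊(X : ℝ) ^ (1 / (r : ℝ))⌋₊ ∧ ⌊(X : ℝ) ^ (1 / (r : ℝ))⌋₊ ^ K ≤ X ∧
      ⌊(X : ℝ) ^ (1 / (r : ℝ))⌋₊ ≤ X := by
  have hr0 : (0 : ℝ) < r := by exact_mod_cast hr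
  have hX1 : (1 : ℝ) ≤ X := by exact_mod_cast hX
  have hx1 : 1 ≤ (X : ℝ) ^ (1 / (r : ℝ)) := Real.one_le_rpow hX1 (by positivity)
  have hxr : ((X : ℝ) ^ (1 / (r : ℝ))) ^ r = X := by
    rw [← Real.rpow_natCast, ← Real.rpow_mul (by linarith), one_div, inv_mul_cancel₀ hr0.ne',
      Real.rpow_one]
  have hf : (⌊(X : ℝ) ^ (1 / (r : ℝ))⌋₊ : ℝ) ≤ (X : ℝ) ^ (1 / (r : ℝ)) :=
    Nat.floor_le (by linarith)
  have hpow : ∀ m : ℕ, m ≤ r → ⌊(X : ℝ) ^ (1 / (r : ℝ))⌋₊ ^ m ≤ X := by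
    intro m hm
    have h1 : ((⌊(X : ℝ) ^ (1 / (r : ℝ))⌋₊ : ℝ)) ^ m ≤ X := by
      calc ((⌊(X : ℝ) ^ (1 / (r : ℝ))⌋₊ : ℝ)) ^ m ≤ ((X : ℝ) ^ (1 / (r : ℝ))) ^ m :=
            pow_le_pow_left₀ (Nat.cast_nonneg _) hf _
        _ ≤ ((X : ℝ) ^ (1 / (r : ℝ))) ^ r := pow_le_pow_right₀ hx1 hm
        _ = X := hxr
    exact_mod_cast h1
  refine ⟨?_, hpow K hK, ?_⟩
  · apply Nat.le_floor
    have h1 : ((N : ℝ) ^ r) ≤ ((X : ℝ) ^ (1 / (r : ℝ))) ^ r := by
      rw [hxr]; exact_mod_cast hN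
    exact le_of_pow_le_pow_left₀ (by omega) (by linarith) h1
  · have := hpow 1 hr
    rwa [pow_one] at this

theorem t_LMOM (h1 : S_AVGQ) : S_LMOM := by
  classical
  intro k R δ x0 η hδ hx0 hη
  obtain ⟨B, hB⟩ : ∃ B : ℝ, B = (1 + 2 * x0) ^ (k * R) := ⟨_, rfl⟩
  have hB1 : 1 ≤ B := by rw [hB]; exact one_le_pow₀ (by linarith)
  have hB0 : 0 < B := by linarith
  obtain ⟨η1, hη1⟩ : ∃ η1 : ℝ, η1 = min 1 (η / (4 * B)) := ⟨_, rfl⟩
  have hη10 : 0 < η1 := by rw [hη1]; positivity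
  have hη11 : η1 ≤ 1 := by rw [hη1]; exact min_le_left _ _
  have hη12 : η1 * B ≤ η / 4 := by
    have : η1 ≤ η / (4 * B) := by rw [hη1]; exact min_le_right _ _
    rw [le_div_iff₀ (by positivity)] at this
    linarith
  obtain ⟨ε, hε⟩ : ∃ ε : ℝ, ε = δ * η / (32 * B) := ⟨_, rfl⟩
  have hε0 : 0 < ε := by rw [hε]; positivity
  obtain ⟨K, hK1, hfund⟩ := lam_fund (2 * (k * R) + 1) (by omega) ε hε0
  obtain ⟨y2, hfund⟩ := hfund (k * R + 1)
  obtain ⟨w, M1, havg⟩ := h1 k R η1 hη10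
  obtain ⟨c0, C0, hc0, hC0, hV⟩ := Pool.Agent.Y810.SQ.V1_bounds
  obtain ⟨A, hA⟩ : ∃ A : ℝ, A = (2 * x0 / c0) ^ (k * R) := ⟨_, rfl⟩
  have hA0 : 0 ≤ A := by rw [hA]; positivity
  refine ⟨K, fun r hr => ?_⟩
  have hr1 : 1 ≤ r := hK1.trans hr
  obtain ⟨X1, hX1⟩ : ∃ X1 : ℕ, Real.exp (16 * A / (δ * η) + 1) ≤ X1 := exists_nat_ge _
  refine ⟨max X1 ((w + y2 + 2) ^ r) + 1, M1 + 1, ?_⟩
  intro X hX Z Y hXZ hZY hδY M hM hMx a c L q hW hq
  have hXX1 : X1 ≤ X := (le_max_left _ _).trans ((Nat.le_succ _).trans hX)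
  have hXN : (w + y2 + 2) ^ r ≤ X := (le_max_right _ _).trans ((Nat.le_succ _).trans hX)
  have hXpos : 1 ≤ X := by omega
  obtain ⟨hy1, hy2, hy3⟩ := level hr1 hr hXN hXpos
  obtain ⟨y, hy⟩ : ∃ y, y = ⌊(X : ℝ) ^ (1 / (r : ℝ))⌋₊ := ⟨_, rfl⟩
  rw [← hy] at hy1 hy2 hy3 hMx ⊢
  obtain ⟨v, hv⟩ : ∃ v, v = V1 y := ⟨_, rfl⟩
  have hv0 : 0 < v := by rw [hv]; exact Pool.Agent.Y810.SQ.V1_pos y
  have hVy := (hV y (by omega)).1
  rw [← hv] at hMx hVy ⊢
  have hXr : (1 : ℝ) ≤ X := by exact_mod_cast hXpos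
  have hX1r : (X1 : ℝ) ≤ X := by exact_mod_cast hXX1
  have hlX : 16 * A / (δ * η) + 1 ≤ Real.log X := by
    rw [Real.le_log_iff_exp_le (by linarith)]
    linarith
  have hlX1 : 1 ≤ Real.log X := by
    have : 0 ≤ 16 * A / (δ * η) := by positivity
    linarith
  have hyr2 : (2 : ℝ) ≤ y := by exact_mod_cast (by omega : 2 ≤ y)
  have hly : 0 < Real.log y := Real.log_pos (by linarith)
  have hlyX : Real.log y ≤ Real.log X := Real.log_le_log (by linarith) (by exact_mod_cast hy3)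
  -- the size of `M`
  have hM1 : (1 : ℝ) ≤ M := by exact_mod_cast (by omega : 1 ≤ M)
  have hMlog : (2 * M : ℝ) ≤ 2 * x0 / c0 * Real.log X := by
    have h2 : (M : ℝ) * (c0 / Real.log y) ≤ x0 :=
      (mul_le_mul_of_nonneg_left hVy (by linarith)).trans hMx
    have h3 : (M : ℝ) ≤ x0 / c0 * Real.log y := by
      have h4 : (M : ℝ) = (M : ℝ) * (c0 / Real.log y) * (Real.log y / c0) := by
        field_simp
      rw [h4]
      calc (M : ℝ) * (c0 / Real.log y) * (Real.log y / c0) ≤ x0 * (Real.log y / c0) :=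
            mul_le_mul_of_nonneg_right h2 (by positivity)
        _ = x0 / c0 * Real.log y := by ring
    have h5 : x0 / c0 * Real.log y ≤ x0 / c0 * Real.log X :=
      mul_le_mul_of_nonneg_left hlyX (by positivity)
    calc (2 * M : ℝ) ≤ 2 * (x0 / c0 * Real.log X) := by linarith
      _ = 2 * x0 / c0 * Real.log X := by ring
  have hLM : ∀ j, L j ≤ 2 * M := by
    intro j
    have := hW.1 j
    omega
  have hK : ∑ j, q j ≤ k * R := by
    calc ∑ j, q j ≤ ∑ _j : Fin k, R := sum_le_sum fun j _ => (hq j).le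
      _ = k * R := by simp
  have hLv : ∀ j, 0 ≤ (L j : ℝ) * v ∧ (L j : ℝ) * v ≤ 2 * x0 := by
    intro j
    refine ⟨mul_nonneg (Nat.cast_nonneg _) hv0.le, ?_⟩
    have h2 : (L j : ℝ) ≤ 2 * M := by exact_mod_cast hLM j
    calc (L j : ℝ) * v ≤ 2 * M * v := mul_le_mul_of_nonneg_right h2 hv0.le
      _ = 2 * (M * v) := by ring
      _ ≤ 2 * x0 := by linarith
  obtain ⟨P, hP⟩ : ∃ P : ℝ, P = ∏ j, (((L j : ℝ) * v) ^ q j / (q j).factorial) := ⟨_, rfl⟩
  have hPB : P ≤ B := by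
    rw [hP, hB]
    calc ∏ j, (((L j : ℝ) * v) ^ q j / (q j).factorial) ≤ ∏ j, (1 + 2 * x0) ^ q j := by
          apply prod_le_prod
          · intro j _
            have := (hLv j).1
            positivity
          · intro j _
            have hf1 : (1 : ℝ) ≤ (q j).factorial := by exact_mod_cast Nat.factorial_pos (q j)
            have h5 : 0 ≤ ((L j : ℝ) * v) ^ q j := pow_nonneg (hLv j).1 _
            exact (div_le_self h5 hf1).trans (pow_le_pow_left₀ (hLv j).1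
              (by linarith [(hLv j).2]) _)
      _ = (1 + 2 * x0) ^ (∑ j, q j) := prod_pow_eq_pow_sum _ _ _
      _ ≤ (1 + 2 * x0) ^ (k * R) := pow_le_pow_right₀ (by linarith) hK
  -- the densities
  obtain ⟨G, hG⟩ : ∃ G : (Fin k → Finset (ℕ × ℤ)) → ℝ, G = fun H =>
    ∏ p ∈ pz y, (1 - (rhoA (QZ 0 (un H)) p : ℝ) / (p - 1 : ℝ)) := ⟨_, rfl⟩
  have hG0 : ∀ H, 0 ≤ G H := by intro H; rw [hG]; exact G_nonneg _ _
  obtain ⟨S, hS⟩ : ∃ S : ℝ, S = ∑ H ∈ fam a c L q, G H := ⟨_, rfl⟩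
  have hSP : |S - P| ≤ η / 4 := by
    have g1 := havg M (by omega) y (by omega) a c L q hW hq
    rw [← hv, ← hP] at g1
    have e1 : ∑ H ∈ fam a c L q, VP (insert (0, 0) (un H)) y = v * S := by
      rw [hS, Finset.mul_sum]
      apply Finset.sum_congr rfl
      intro H _
      rw [VP_insert, ← hv, hG]
    rw [e1, ← mul_sub, abs_mul, abs_of_pos hv0] at g1
    have g2 : ((M : ℝ) * v) ^ (∑ j, q j) ≤ B := by
      rw [hB]
      calc ((M : ℝ) * v) ^ (∑ j, q j) ≤ (1 + 2 * x0) ^ (∑ j, q j) :=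
            pow_le_pow_left₀ (by positivity) (by linarith) _
        _ ≤ (1 + 2 * x0) ^ (k * R) := pow_le_pow_right₀ (by linarith) hK
    have g3 : v * |S - P| ≤ v * (η / 4) := by
      refine g1.trans ?_
      calc η1 * (v * ((M : ℝ) * v) ^ (∑ j, q j)) = v * (η1 * ((M : ℝ) * v) ^ (∑ j, q j)) := by ring
        _ ≤ v * (η1 * B) := by gcongr
        _ ≤ v * (η / 4) := by gcongr
    exact le_of_mul_le_mul_left g3 hv0
  have hSB : S ≤ 2 * B := by
    have g1 := (abs_le.1 hSP).2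
    have h2 : v * 0 ≤ v := by linarith
    -- `η / 4` may be large, use the better bound
    have g1' := havg M (by omega) y (by omega) a c L q hW hq
    rw [← hv, ← hP] at g1'
    have e1 : ∑ H ∈ fam a c L q, VP (insert (0, 0) (un H)) y = v * S := by
      rw [hS, Finset.mul_sum]
      apply Finset.sum_congr rfl
      intro H _
      rw [VP_insert, ← hv, hG]
    rw [e1, ← mul_sub, abs_mul, abs_of_pos hv0] at g1'
    have g2 : ((M : ℝ) * v) ^ (∑ j, q j) ≤ B := by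
      rw [hB]
      calc ((M : ℝ) * v) ^ (∑ j, q j) ≤ (1 + 2 * x0) ^ (∑ j, q j) :=
            pow_le_pow_left₀ (by positivity) (by linarith) _
        _ ≤ (1 + 2 * x0) ^ (k * R) := pow_le_pow_right₀ (by linarith) hK
    have g3 : v * |S - P| ≤ v * B := by
      refine g1'.trans ?_
      calc η1 * (v * ((M : ℝ) * v) ^ (∑ j, q j)) = v * (η1 * ((M : ℝ) * v) ^ (∑ j, q j)) := by ring
        _ ≤ v * (1 * B) := by gcongr
        _ = v * B := by ring
    have g4 : |S - P| ≤ B := le_of_mul_le_mul_left g3 hv0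
    have g5 := (abs_le.1 g4).2
    linarith
  have hY0 : (0 : ℝ) ≤ Y := Nat.cast_nonneg _
  have hXY : (X : ℝ) ≤ Y / δ := by
    rw [le_div_iff₀ hδ]
    linarith
  -- one family
  have hone : ∀ H ∈ fam a c L q,
      |∑ n ∈ (Ioc Z (Z + Y)).filter (fun n => ∀ g ∈ un H, Gd y n g),
        ArithmeticFunction.vonMangoldt n - Y * G H| ≤
      ε * (4 * X * G H) + 4 * X / Real.log X ^ (k * R + 1) := by
    intro H hH
    have hc := un_card a c L q H hH
    have hper : PerA (QZ 0 (un H)) (2 * (k * R) + 1) := perA_QZ (un H) _ (by omega)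
    have f1 := hfund (2 * X) y (by omega) (hy2.trans (by omega)) (QZ 0 (un H)) hper (Z + Y) hZY
    have f2 := hfund (2 * X) y (by omega) (hy2.trans (by omega)) (QZ 0 (un H)) hper Z (by omega)
    have eG : ∏ p ∈ pz y, (1 - (rhoA (QZ 0 (un H)) p : ℝ) / (p - 1 : ℝ)) = G H := by rw [hG]
    rw [eG] at f1 f2
    have hlog2 : Real.log X ≤ Real.log ((2 * X : ℕ) : ℝ) :=
      Real.log_le_log (by linarith) (by push_cast; linarith)
    have hfrac : ((2 * X : ℕ) : ℝ) / Real.log ((2 * X : ℕ) : ℝ) ^ (k * R + 1) ≤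
        2 * X / Real.log X ^ (k * R + 1) := by
      push_cast at hlog2 ⊢
      apply div_le_div_of_nonneg_left (by positivity) (by positivity)
      exact pow_le_pow_left₀ (by linarith) hlog2 _
    have hZr : ((Z + Y : ℕ) : ℝ) ≤ 2 * X := by exact_mod_cast hZY
    have hZr' : (Z : ℝ) ≤ 2 * X := by
      have : (Z : ℝ) ≤ ((Z + Y : ℕ) : ℝ) := by exact_mod_cast (by omega : Z ≤ Z + Y)
      linarith
    have hGH := hG0 H
    rw [sum_window]
    have t1 : ε * (((Z + Y : ℕ) : ℝ) * G H) ≤ ε * (2 * X * G H) := by gcongr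
    have t2 : ε * ((Z : ℝ) * G H) ≤ ε * (2 * X * G H) := by gcongr
    have e3 : (Y : ℝ) * G H = ((Z + Y : ℕ) : ℝ) * G H - (Z : ℝ) * G H := by
      push_cast; ring
    have e4 : 4 * (X : ℝ) / Real.log X ^ (k * R + 1) = 2 * X / Real.log X ^ (k * R + 1) +
        2 * X / Real.log X ^ (k * R + 1) := by ring
    rw [e3, e4]
    rw [abs_le] at f1 f2 ⊢
    constructor <;> linarith [f1.1, f1.2, f2.1, f2.2]
  -- the sum over the families
  rw [momw, ← hP]
  have hsum : |∑ H ∈ fam a c L q, ∑ n ∈ (Ioc Z (Z + Y)).filter (fun n => ∀ g ∈ un H, Gd y n g),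
      ArithmeticFunction.vonMangoldt n - Y * S| ≤
      ε * (4 * X * S) + (fam a c L q).card * (4 * X / Real.log X ^ (k * R + 1)) := by
    rw [hS, Finset.mul_sum, ← Finset.sum_sub_distrib]
    refine (Finset.abs_sum_le_sum_abs _ _).trans ((Finset.sum_le_sum hone).trans ?_)
    rw [Finset.sum_add_distrib, ← Finset.mul_sum, ← Finset.mul_sum, Finset.sum_const, nsmul_eq_mul]
  have hfam : ((fam a c L q).card : ℝ) ≤ A * Real.log X ^ (k * R) := by
    have h4 : (fam a c L q).card ≤ (2 * M) ^ (k * R) :=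
      (fam_card a c L q M hLM).trans (Nat.pow_le_pow_right (by omega) hK)
    calc ((fam a c L q).card : ℝ) ≤ (((2 * M) ^ (k * R) : ℕ) : ℝ) := by exact_mod_cast h4
      _ = (2 * M : ℝ) ^ (k * R) := by push_cast; ring
      _ ≤ (2 * x0 / c0 * Real.log X) ^ (k * R) := pow_le_pow_left₀ (by positivity) hMlog _
      _ = A * Real.log X ^ (k * R) := by rw [mul_pow, hA]
  have s1 : ε * (4 * X * S) ≤ η / 4 * Y := by
    have h2 : 0 ≤ (X : ℝ) := by linarith
    calc ε * (4 * X * S) ≤ ε * (4 * X * (2 * B)) := by gcongr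
      _ ≤ ε * (4 * (Y / δ) * (2 * B)) := by gcongr
      _ = η / 4 * Y := by rw [hε]; field_simp; ring
  have s2 : ((fam a c L q).card : ℝ) * (4 * X / Real.log X ^ (k * R + 1)) ≤ η / 4 * Y := by
    have hl0 : 0 < Real.log X := by linarith
    calc ((fam a c L q).card : ℝ) * (4 * X / Real.log X ^ (k * R + 1)) ≤
          A * Real.log X ^ (k * R) * (4 * X / Real.log X ^ (k * R + 1)) := by gcongr
      _ = 4 * A * X / Real.log X := by rw [pow_succ]; field_simp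
      _ ≤ 4 * A * (Y / δ) / Real.log X := by gcongr
      _ ≤ η / 4 * Y := by
          rw [div_le_iff₀ hl0]
          have h5 : 16 * A / (δ * η) ≤ Real.log X := by linarith
          calc 4 * A * (Y / δ) = η / 4 * Y * (16 * A / (δ * η)) := by field_simp; ring
            _ ≤ η / 4 * Y * Real.log X := by gcongr
  have s3 : |Y * S - Y * P| ≤ η / 4 * Y := by
    rw [← mul_sub, abs_mul, abs_of_nonneg hY0, mul_comm]
    exact mul_le_mul_of_nonneg_right hSP hY0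
  have s4 := abs_sub_le (∑ H ∈ fam a c L q, ∑ n ∈ (Ioc Z (Z + Y)).filter
    (fun n => ∀ g ∈ un H, Gd y n g), ArithmeticFunction.vonMangoldt n) (Y * S) (Y * P)
  have hηY : 0 ≤ η * Y := by positivity
  linarith

end Pool.Agent.Y349.SQ3
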